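import Pool.Agent.H6.FN.TargetsG

/-!
MP_7500ea_al, board fcn_modules, row MDG: the minimal degree of a doubly transitive group without
3-cycles.
-/

open scoped Classical

namespace Pool.Agent.H65.FN

open MulAction FI

section count

variable {α : Type} [Fintype α]

/-- the elements of `G` which map `u'` to `u` and `v'` to `v` -/
noncomputable def Nst (G : Subgroup (Equiv.Perm α)) (u v u' v' : α) : Finset (Equiv.Perm α) :=
  Finset.univ.filter fun h => h ∈ G ∧ h⁻¹ u = u' ∧ h⁻¹ v = v'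

lemma card_Nst (G : Subgroup (Equiv.Perm α)) (hG : IsMultiplyPretransitive G α 2)
    {u v u' v' w z w' z' : α} (h1 : u ≠ v) (h2 : u' ≠ v') (h3 : w ≠ z) (h4 : w' ≠ z') :
    (Nst G u v u' v').card = (Nst G w z w' z').card := by
  rw [is_two_pretransitive_iff] at hG
  obtain ⟨a, ha1, ha2⟩ := hG h1 h3
  obtain ⟨b, hb1, hb2⟩ := hG h2 h4
  have ha1' : (a : Equiv.Perm α) u = w := ha1
  have ha2' : (a : Equiv.Perm α) v = z := ha2
  have hb1' : (b : Equiv.Perm α) u' = w' := hb1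
  have hb2' : (b : Equiv.Perm α) v' = z' := hb2
  refine Finset.card_equiv
    ((Equiv.mulLeft (a : Equiv.Perm α)).trans (Equiv.mulRight (b : Equiv.Perm α)⁻¹)) fun h => ?_
  rw [Nst, Nst, Finset.mem_filter, Finset.mem_filter]
  simp only [Finset.mem_univ, true_and, Equiv.trans_apply, Equiv.coe_mulLeft,
    Equiv.coe_mulRight]
  have e1 : ((a : Equiv.Perm α) * h * (b : Equiv.Perm α)⁻¹) ∈ G ↔ h ∈ G := by
    rw [G.mul_mem_cancel_right (G.inv_mem b.2), G.mul_mem_cancel_left a.2]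
  have e2 : ∀ c d c' d' : α, (a : Equiv.Perm α) c = d → (b : Equiv.Perm α) c' = d' →
      (((a : Equiv.Perm α) * h * (b : Equiv.Perm α)⁻¹)⁻¹ d = d' ↔ h⁻¹ c = c') := by
    intro c d c' d' hc hd
    rw [mul_inv_rev, mul_inv_rev, inv_inv, Equiv.Perm.mul_apply, Equiv.Perm.mul_apply, ← hc,
      ← hd]
    have : (a : Equiv.Perm α)⁻¹ ((a : Equiv.Perm α) c) = c := Equiv.symm_apply_apply _ c
    rw [this, EmbeddingLike.apply_eq_iff_eq]
  rw [e1, e2 u w u' w' ha1' hb1', e2 v z v' z' ha2' hb2']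

/-- a mean value -/
lemma exists_small (G : Subgroup (Equiv.Perm α)) (hG : IsMultiplyPretransitive G α 2)
    (Δ : Finset α) (a0 b0 : α) (ha : a0 ∈ Δ) (hb : b0 ∈ Δ) (hab : a0 ≠ b0)
    (hlt : Δ.card < Fintype.card α) :
    ∃ h ∈ G, h⁻¹ a0 ∉ Δ ∧ h⁻¹ b0 ∈ Δ ∧
      (Δ.filter fun ω => h⁻¹ ω ∈ Δ).card * (Fintype.card α - Δ.card) ≤
        (Fintype.card α - Δ.card) + (Δ.card - 1) * (Δ.card - 2) := by
  set μ := Δ.card with hμ
  set m := Fintype.card α - μ with hm
  have hm0 : 0 < m := by omega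
  set q := (Nst G a0 b0 a0 b0).card with hq
  have hq0 : 0 < q := Finset.card_pos.2 ⟨1, by
    rw [Nst, Finset.mem_filter]
    exact ⟨Finset.mem_univ _, G.one_mem, by simp, by simp⟩⟩
  set E : Finset (Equiv.Perm α) :=
    Finset.univ.filter fun h => h ∈ G ∧ h⁻¹ a0 ∉ Δ ∧ h⁻¹ b0 ∈ Δ with hE
  have hEc : E.card = m * μ * q := by
    have h1 := Finset.card_eq_sum_card_fiberwise (s := E)
      (f := fun h : Equiv.Perm α => (h⁻¹ a0, h⁻¹ b0)) (t := Δᶜ ×ˢ Δ) (by
        intro h hh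
        rw [Finset.mem_coe, hE, Finset.mem_filter] at hh
        rw [Finset.mem_coe, Finset.mem_product, Finset.mem_compl]
        exact ⟨hh.2.2.1, hh.2.2.2⟩)
    rw [h1]
    have h2 : ∀ c ∈ Δᶜ ×ˢ Δ, (E.filter fun h => (h⁻¹ a0, h⁻¹ b0) = c).card = q := by
      rintro ⟨u, v⟩ hc
      rw [Finset.mem_product, Finset.mem_compl] at hc
      have huv : u ≠ v := fun h => hc.1 (h ▸ hc.2)
      rw [hq, ← card_Nst G hG hab huv hab hab]
      congr 1
      ext h
      rw [Finset.mem_filter, hE, Nst, Finset.mem_filter, Finset.mem_filter, Prod.mk.injEq]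
      constructor
      · rintro ⟨⟨_, h3, _, _⟩, h4, h5⟩
        exact ⟨Finset.mem_univ _, h3, h4, h5⟩
      · rintro ⟨_, h3, h4, h5⟩
        exact ⟨⟨Finset.mem_univ _, h3, h4 ▸ hc.1, h5 ▸ hc.2⟩, h4, h5⟩
    rw [Finset.sum_congr rfl h2, Finset.sum_const, smul_eq_mul, Finset.card_product,
      Finset.card_compl]
  have hFc : ∀ ω, ω ≠ b0 → (Finset.univ.filter fun h : Equiv.Perm α =>
      h ∈ G ∧ h⁻¹ ω ∈ Δ ∧ h⁻¹ b0 ∈ Δ).card = (μ * μ - μ) * q := by
    intro ω hω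
    have h1 := Finset.card_eq_sum_card_fiberwise (s := Finset.univ.filter
      fun h : Equiv.Perm α => h ∈ G ∧ h⁻¹ ω ∈ Δ ∧ h⁻¹ b0 ∈ Δ)
      (f := fun h : Equiv.Perm α => (h⁻¹ ω, h⁻¹ b0)) (t := Δ.offDiag) (by
        intro h hh
        rw [Finset.mem_coe, Finset.mem_filter] at hh
        rw [Finset.mem_coe, Finset.mem_offDiag]
        exact ⟨hh.2.2.1, hh.2.2.2, fun he => hω ((h⁻¹).injective he)⟩)
    rw [h1]
    have h2 : ∀ c ∈ Δ.offDiag, ((Finset.univ.filter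
        fun h : Equiv.Perm α => h ∈ G ∧ h⁻¹ ω ∈ Δ ∧ h⁻¹ b0 ∈ Δ).filter
          fun h => (h⁻¹ ω, h⁻¹ b0) = c).card = q := by
      rintro ⟨u, v⟩ hc
      rw [Finset.mem_offDiag] at hc
      rw [hq, ← card_Nst G hG hω hc.2.2 hab hab]
      congr 1
      ext h
      rw [Finset.mem_filter, Nst, Finset.mem_filter, Finset.mem_filter, Prod.mk.injEq]
      constructor
      · rintro ⟨⟨_, h3, _, _⟩, h4, h5⟩
        exact ⟨Finset.mem_univ _, h3, h4, h5⟩
      · rintro ⟨_, h3, h4, h5⟩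
        exact ⟨⟨Finset.mem_univ _, h3, h4 ▸ hc.1, h5 ▸ hc.2.1⟩, h4, h5⟩
    rw [Finset.sum_congr rfl h2, Finset.sum_const, smul_eq_mul, Finset.offDiag_card]
  -- double counting
  have hsw : ∑ h ∈ E, (Δ.filter fun ω => h⁻¹ ω ∈ Δ).card =
      ∑ ω ∈ Δ, (E.filter fun h => h⁻¹ ω ∈ Δ).card := by
    simp only [Finset.card_filter]
    exact Finset.sum_comm
  have hle : ∑ ω ∈ Δ, (E.filter fun h => h⁻¹ ω ∈ Δ).card ≤
      E.card + (μ - 2) * ((μ * μ - μ) * q) := by
    rw [← Finset.add_sum_erase Δ _ hb]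
    have hb' : a0 ∈ Δ.erase b0 := Finset.mem_erase.2 ⟨hab, ha⟩
    rw [← Finset.add_sum_erase (Δ.erase b0) _ hb']
    have h1 : (E.filter fun h => h⁻¹ b0 ∈ Δ).card ≤ E.card :=
      Finset.card_le_card (Finset.filter_subset _ _)
    have h2 : (E.filter fun h => h⁻¹ a0 ∈ Δ).card = 0 := by
      rw [Finset.card_eq_zero, Finset.filter_eq_empty_iff]
      intro h hh
      rw [hE, Finset.mem_filter] at hh
      exact hh.2.2.1
    have h3 : ∀ ω ∈ (Δ.erase b0).erase a0,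
        (E.filter fun h => h⁻¹ ω ∈ Δ).card ≤ (μ * μ - μ) * q := by
      intro ω hω
      rw [Finset.mem_erase, Finset.mem_erase] at hω
      rw [← hFc ω hω.2.1]
      refine Finset.card_le_card fun h hh => ?_
      rw [Finset.mem_filter, hE, Finset.mem_filter] at hh
      rw [Finset.mem_filter]
      exact ⟨Finset.mem_univ _, hh.1.2.1, hh.2, hh.1.2.2.2⟩
    have h4 := Finset.sum_le_card_nsmul _ _ _ h3
    rw [Finset.card_erase_of_mem hb', Finset.card_erase_of_mem hb, smul_eq_mul] at h4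
    have h5 : μ - 1 - 1 = μ - 2 := by omega
    rw [← hμ, h5] at h4
    omega
  have hEne : E.Nonempty := by
    rw [← Finset.card_pos, hEc]
    have hμ0 : 0 < μ := Finset.card_pos.2 ⟨a0, ha⟩
    positivity
  by_contra hno
  push Not at hno
  have hall : ∀ h ∈ E, m + (μ - 1) * (μ - 2) < (Δ.filter fun ω => h⁻¹ ω ∈ Δ).card * m := by
    intro h hh
    rw [hE, Finset.mem_filter] at hh
    exact hno h hh.2.1 hh.2.2.1 hh.2.2.2
  have h1 : ∑ h ∈ E, (m + (μ - 1) * (μ - 2)) <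
      ∑ h ∈ E, (Δ.filter fun ω => h⁻¹ ω ∈ Δ).card * m := Finset.sum_lt_sum_of_nonempty hEne hall
  rw [← Finset.sum_mul, hsw, Finset.sum_const, smul_eq_mul] at h1
  have h2 := Nat.mul_le_mul_right m hle
  have h3 : (μ * μ - μ) = μ * (μ - 1) := by
    rcases Nat.eq_zero_or_pos μ with h | h
    · rw [h]
    · rw [Nat.mul_sub_one]
  have h4 : E.card * (m + (μ - 1) * (μ - 2)) =
      (E.card + (μ - 2) * ((μ * μ - μ) * q)) * m := by
    rw [h3, hEc]
    ring
  omega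

end count

/-- MDG: the minimal degree of a doubly transitive group without 3-cycles -/
theorem pf_MDG (CMS : T_CMS) : T_MDG := by
  intro α _ _ G hG h3 hn g0 hg0 hg01
  -- an element of minimal degree
  obtain ⟨g, ⟨hgG, hg1⟩, hmin⟩ : ∃ g : Equiv.Perm α, (g ∈ G ∧ g ≠ 1) ∧
      ∀ g' : Equiv.Perm α, g' ∈ G ∧ g' ≠ 1 → g.support.card ≤ g'.support.card := by
    obtain ⟨g, hg, hm⟩ := Finset.exists_min_image
      (Finset.univ.filter fun g : Equiv.Perm α => g ∈ G ∧ g ≠ 1) (fun g => g.support.card)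
      ⟨g0, by rw [Finset.mem_filter]; exact ⟨Finset.mem_univ _, hg0, hg01⟩⟩
    rw [Finset.mem_filter] at hg
    exact ⟨g, hg.2, fun g' hg' => hm g' (by
      rw [Finset.mem_filter]; exact ⟨Finset.mem_univ _, hg'⟩)⟩
  suffices hs : Nat.card α < 5 * g.support.card by
    have := hmin g0 ⟨hg0, hg01⟩
    omega
  by_contra hlt
  push Not at hlt
  rw [Nat.card_eq_fintype_card] at hlt hn
  have hμ2 : 2 ≤ g.support.card := Equiv.Perm.two_le_card_support_of_ne_one hg1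
  obtain ⟨a0, ha0⟩ : g.support.Nonempty := Finset.card_pos.1 (by omega)
  have hga : g a0 ≠ a0 := Equiv.Perm.mem_support.1 ha0
  have hb0 : g a0 ∈ g.support := Equiv.Perm.apply_mem_support.2 ha0
  obtain ⟨h, hhG, hha, hhb, hr⟩ := exists_small G hG g.support a0 (g a0) ha0 hb0 (Ne.symm hga)
    (by omega)
  have hsup : g.support ∩ (h * g * h⁻¹).support =
      g.support.filter fun ω => h⁻¹ ω ∈ g.support := by
    ext ω
    rw [Finset.mem_inter, Finset.mem_filter]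
    refine and_congr_right fun _ => ?_
    rw [Equiv.Perm.mem_support, Equiv.Perm.mem_support, Equiv.Perm.mul_apply,
      Equiv.Perm.mul_apply, not_iff_not, ← Equiv.Perm.eq_inv_iff_eq]
  obtain ⟨c1, c2⟩ := CMS α g (h * g * h⁻¹)
  rw [hsup] at c1 c2
  set r := (g.support.filter fun ω => h⁻¹ ω ∈ g.support).card with hrdef
  have hr : r * (Fintype.card α - g.support.card) ≤ (Fintype.card α - g.support.card) +
      (g.support.card - 1) * (g.support.card - 2) := by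
    convert hr
  have hr0 : 0 < r := Finset.card_pos.2 ⟨g a0, Finset.mem_filter.2 ⟨hb0, hhb⟩⟩
  have hg'G : h * g * h⁻¹ ∈ G := G.mul_mem (G.mul_mem hhG hgG) (G.inv_mem hhG)
  have hcG : g * (h * g * h⁻¹) * g⁻¹ * (h * g * h⁻¹)⁻¹ ∈ G :=
    G.mul_mem (G.mul_mem (G.mul_mem hgG hg'G) (G.inv_mem hgG)) (G.inv_mem hg'G)
  have hc1 : g * (h * g * h⁻¹) * g⁻¹ * (h * g * h⁻¹)⁻¹ ≠ 1 := by
    intro hc
    have hcomm : g * (h * g * h⁻¹) = (h * g * h⁻¹) * g := by
      rw [mul_inv_eq_one, mul_inv_eq_iff_eq_mul] at hc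
      exact hc
    have h5 : (h * g * h⁻¹) a0 = a0 := by
      rw [Equiv.Perm.mul_apply, Equiv.Perm.mul_apply]
      rw [Equiv.Perm.notMem_support] at hha
      rw [hha]
      exact Equiv.apply_symm_apply h a0
    have h6 := DFunLike.congr_fun hcomm a0
    rw [Equiv.Perm.mul_apply, Equiv.Perm.mul_apply _ g, h5] at h6
    have h7 : h⁻¹ (g a0) ∉ g.support := by
      rw [Equiv.Perm.notMem_support, Equiv.Perm.eq_inv_iff_eq]
      rw [Equiv.Perm.mul_apply, Equiv.Perm.mul_apply] at h6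
      exact h6.symm
    exact h7 hhb
  have hμc := hmin _ ⟨hcG, hc1⟩
  by_cases hr1 : r = 1
  · exact h3 _ hcG (c2 hr1)
  · set μ := g.support.card with hμ
    obtain ⟨s, hs⟩ : ∃ s, r = s + 2 := ⟨r - 2, by omega⟩
    obtain ⟨k, hk⟩ : ∃ k, μ = k + 2 := ⟨μ - 2, by omega⟩
    obtain ⟨m, hm⟩ : ∃ m, Fintype.card α - μ = m := ⟨_, rfl⟩
    have h8 : μ ≤ 3 * r := hμc.trans c1
    rw [hm] at hr
    have hm4 : 4 * μ ≤ m := by omega
    rw [hs, hk] at hr
    have e1 : k + 2 - 1 = k + 1 := by omega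
    have e2 : k + 2 - 2 = k := by omega
    rw [e1, e2] at hr
    have h9 : (s + 1) * m ≤ (k + 1) * k := by
      have : (s + 2) * m = (s + 1) * m + m := by ring
      omega
    have h10 : k ≤ 3 * s + 4 := by omega
    -- k small
    by_cases hk2 : k ≤ 2
    · have h11 : 23 ≤ m := by omega
      have h12 : (k + 1) * k ≤ 6 := by
        interval_cases k <;> norm_num
      have h13 : 1 * 23 ≤ (s + 1) * m := Nat.mul_le_mul (by omega) h11
      omega
    · push Not at hk2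
      have h14 : 4 * (k + 2) ≤ m := by omega
      have h15 : (s + 1) * (4 * (k + 2)) ≤ (s + 1) * m := Nat.mul_le_mul_left _ h14
      have h16 : k ≤ 3 * (s + 1) + 1 := by omega
      nlinarith
end Pool.Agent.H65.FN
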