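import Pool.Agent.H6.FN.TargetsG

/-!
MP_7500ea_al, board fcn_modules, row MTR: multiple transitivity of a permutation group of large
minimal degree.
-/

open scoped Classical

namespace Pool.Agent.H65.FN

open MulAction FI

/-- five primes above `a` -/
lemma five_primes (a : ℕ) (ha : 0 < a) : ∃ p : Fin 5 → ℕ, (∀ i, (p i).Prime) ∧ (∀ i, a < p i) ∧
    Function.Injective p ∧ ∑ i, p i ≤ 62 * a := by
  obtain ⟨p1, hp1, l1, u1⟩ := Nat.exists_prime_lt_and_le_two_mul a (by omega)
  obtain ⟨p2, hp2, l2, u2⟩ := Nat.exists_prime_lt_and_le_two_mul p1 (by omega)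
  obtain ⟨p3, hp3, l3, u3⟩ := Nat.exists_prime_lt_and_le_two_mul p2 (by omega)
  obtain ⟨p4, hp4, l4, u4⟩ := Nat.exists_prime_lt_and_le_two_mul p3 (by omega)
  obtain ⟨p5, hp5, l5, u5⟩ := Nat.exists_prime_lt_and_le_two_mul p4 (by omega)
  refine ⟨![p1, p2, p3, p4, p5], ?_, ?_, ?_, ?_⟩
  · intro i; fin_cases i <;> assumption
  · intro i; fin_cases i
    · exact l1
    · exact l1.trans l2
    · exact (l1.trans l2).trans l3
    · exact ((l1.trans l2).trans l3).trans l4
    · exact (((l1.trans l2).trans l3).trans l4).trans l5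
  · have : StrictMono ![p1, p2, p3, p4, p5] := by
      refine Fin.strictMono_iff_lt_succ.2 fun i => ?_
      fin_cases i
      · exact l2
      · exact l3
      · exact l4
      · exact l5
    exact this.injective
  · rw [Fin.sum_univ_five]
    change p1 + p2 + p3 + p4 + p5 ≤ 62 * a
    omega

/-- an element of a multiply transitive group with prescribed cycles -/
lemma exists_cycles {α : Type} [Fintype α] (G : Subgroup (Equiv.Perm α)) (t : ℕ)
    (ht : t ≤ Nat.card α) (hG : IsMultiplyPretransitive G α t) {k : ℕ} (p : Fin k → ℕ)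
    (hp : ∀ i, 0 < p i) (hs : ∑ i, p i ≤ t) :
    ∃ g ∈ G, ∃ x : (i : Fin k) → α, ∀ (i : Fin k) (m : ℕ), (g ^ m) (x i) = x i → p i ∣ m := by
  have : ∀ i, NeZero (p i) := fun i => ⟨(hp i).ne'⟩
  have hc : Fintype.card (Σ i : Fin k, ZMod (p i)) = ∑ i, p i := by
    rw [Fintype.card_sigma]
    exact Finset.sum_congr rfl fun i _ => ZMod.card (p i)
  have hst : IsMultiplyPretransitive G α (∑ i, p i) :=
    isMultiplyPretransitive_of_le (n := t) hs ht
  obtain e : (Σ i : Fin k, ZMod (p i)) ≃ Fin (∑ i, p i) := Fintype.equivFinOfCardEq hc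
  obtain ⟨x⟩ : Nonempty (Fin (∑ i, p i) ↪ α) := by
    refine Function.Embedding.nonempty_of_card_le ?_
    rw [Fintype.card_fin]
    refine (hs.trans ht).trans ?_
    rw [Nat.card_eq_fintype_card]
  let rot : (Σ i : Fin k, ZMod (p i)) ≃ (Σ i : Fin k, ZMod (p i)) :=
    Equiv.sigmaCongrRight fun i => Equiv.addRight (1 : ZMod (p i))
  let y : Fin (∑ i, p i) ↪ α := ((e.symm.trans (rot.trans e)).toEmbedding).trans x
  obtain ⟨g, hg⟩ := hst.exists_smul_eq x y
  have h1 : ∀ c : (Σ i : Fin k, ZMod (p i)), (g : Equiv.Perm α) (x (e c)) = x (e (rot c)) := by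
    intro c
    have h2 := DFunLike.congr_fun hg (e c)
    rw [Function.Embedding.smul_apply] at h2
    change (g : Equiv.Perm α) (x (e c)) = x (e (rot (e.symm (e c)))) at h2
    rwa [e.symm_apply_apply] at h2
  have h3 : ∀ (i : Fin k) (m : ℕ) (j : ZMod (p i)),
      ((g : Equiv.Perm α) ^ m) (x (e ⟨i, j⟩)) = x (e ⟨i, j + m⟩) := by
    intro i m
    induction m with
    | zero => intro j; simp
    | succ m ih =>
      intro j
      rw [pow_succ', Equiv.Perm.mul_apply, ih, h1]
      have : rot ⟨i, j + m⟩ = ⟨i, j + ((m + 1 : ℕ) : ZMod (p i))⟩ := by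
        change (⟨i, j + m + 1⟩ : Σ i : Fin k, ZMod (p i)) = _
        rw [Nat.cast_succ, add_assoc]
      rw [this]
  refine ⟨g, g.2, fun i => x (e ⟨i, 0⟩), fun i m hm => ?_⟩
  rw [h3] at hm
  have h4 := e.injective (x.injective hm)
  rw [Sigma.mk.injEq] at h4
  have h5 : (0 : ZMod (p i)) + m = 0 := eq_of_heq h4.2
  rw [zero_add] at h5
  exact (ZMod.natCast_eq_zero_iff m (p i)).1 h5

/-- MTR: multiple transitivity -/
theorem pf_MTR : T_MTR := by
  intro α _ _ G hmd t ht hG
  by_contra hlt
  push Not at hlt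
  set n := Nat.card α with hn
  have hnF : n = Fintype.card α := by rw [hn, Nat.card_eq_fintype_card]
  set a := Nat.sqrt n + 1 with ha
  have ha2 : n < a * a := Nat.lt_succ_sqrt n
  have hat : 62 * a < t := by
    have h1 : (a : ℝ) ≤ Real.sqrt n + 1 := by
      rw [ha]
      push_cast
      have : (Nat.sqrt n : ℝ) ≤ Real.sqrt n := Real.nat_sqrt_le_real_sqrt
      linarith
    have h2 : (62 : ℝ) * a < t := lt_of_le_of_lt (by linarith) hlt
    exact_mod_cast h2
  obtain ⟨p, hp, hpa, hpi, hps⟩ := five_primes a (by omega)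
  obtain ⟨g, hgG, x, hx⟩ := exists_cycles G t ht hG p (fun i => (hp i).pos)
    (hps.trans hat.le)
  set N := orderOf g with hN
  have hN0 : 0 < N := orderOf_pos g
  have hpN : ∀ i, p i ∣ N := fun i => hx i N (by rw [hN, pow_orderOf_eq_one]; rfl)
  -- the elements of prime order
  have hne : ∀ i, g ^ (N / p i) ≠ 1 := fun i =>
    pow_ne_one_of_lt_orderOf (Nat.div_pos (Nat.le_of_dvd hN0 (hpN i)) (hp i).pos).ne'
      (Nat.div_lt_self hN0 (hp i).one_lt)
  -- a moved point has a long cycle
  have hmv : ∀ i ω, (g ^ (N / p i)) ω ≠ ω → p i ∣ Function.minimalPeriod g ω := by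
    intro i ω hω
    by_contra hnd
    have h1 : Function.minimalPeriod g ω ∣ N := by
      refine Function.IsPeriodicPt.minimalPeriod_dvd ?_
      change (g : α → α)^[N] ω = ω
      rw [← Equiv.Perm.coe_pow, hN, pow_orderOf_eq_one]
      rfl
    have h2 : Nat.Coprime (Function.minimalPeriod g ω) (p i) :=
      ((Nat.Prime.coprime_iff_not_dvd (hp i)).2 hnd).symm
    have h3 : Function.minimalPeriod g ω ∣ N / p i := by
      have h4 : Function.minimalPeriod g ω ∣ p i * (N / p i) := by
        rwa [Nat.mul_div_cancel' (hpN i)]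
      exact h2.dvd_of_dvd_mul_left h4
    refine hω ?_
    rw [Equiv.Perm.coe_pow]
    exact (Function.isPeriodicPt_minimalPeriod g ω).trans_dvd h3
  have hdis : ∀ i j, i ≠ j → Disjoint (g ^ (N / p i)).support (g ^ (N / p j)).support := by
    intro i j hij
    rw [Finset.disjoint_left]
    intro ω h1 h2
    rw [Equiv.Perm.mem_support] at h1 h2
    have h3 := hmv i ω h1
    have h4 := hmv j ω h2
    have hco : Nat.Coprime (p i) (p j) :=
      (Nat.coprime_primes (hp i) (hp j)).2 fun h => hij (hpi h)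
    have h5 : p i * p j ∣ Function.minimalPeriod g ω := hco.mul_dvd_of_dvd_of_dvd h3 h4
    have h6 : 0 < Function.minimalPeriod g ω := by
      refine Function.minimalPeriod_pos_of_mem_periodicPts ?_
      exact ⟨N, hN0, by
        change (g : α → α)^[N] ω = ω
        rw [← Equiv.Perm.coe_pow, hN, pow_orderOf_eq_one]; rfl⟩
    have h7 : Function.minimalPeriod g ω ≤ n := by
      rw [hnF]; exact Function.minimalPeriod_le_card
    have h8 := (Nat.le_of_dvd h6 h5).trans h7
    have h9 : a * a ≤ p i * p j := Nat.mul_le_mul (hpa i).le (hpa j).le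
    omega
  have hsum : ∑ i : Fin 5, (g ^ (N / p i)).support.card ≤ n := by
    rw [← Finset.card_biUnion fun i _ j _ hij => hdis i j hij, hnF]
    exact Finset.card_le_univ _
  have hbig : ∀ i, n < 5 * (g ^ (N / p i)).support.card := fun i =>
    hmd _ (G.pow_mem hgG _) (hne i)
  rw [Fin.sum_univ_five] at hsum
  have b0 := hbig 0
  have b1 := hbig 1
  have b2 := hbig 2
  have b3 := hbig 3
  have b4 := hbig 4
  omega

end Pool.Agent.H65.FN
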